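import Pool.Agent.TH680.LHD.Psp

/-! `PSPACE` is reducible to tally sets in `NP`, relative to oracles with few rare strings. -/

set_option autoImplicit false

namespace Pool.Agent.TH680.LHD

open Pool.Agent.NPC Pool.Agent.H620R2.Gauge Pool.Agent.H591R3.PHG MeasureTheory ProbabilityTheory
  Finset Pool.Agent.W900.IE Pool.Agent.W900.PS Pool.Agent.H622R2 Pool.Agent.W900
open Pool.Agent.TH680.OD (join sfx rr length_sfx)
open Pool.Agent.TH680.ND (rep rareB tl ndl sepN isFP_sepN exists_table ndl_enc rep_mem_tl)

/-- questions in `PSPACE` are reduced to `Q`, given the list of the rare strings -/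
theorem list_psp {Q A C : Oracle} (hC : ∀ z, C z = Q (rep z.length)) (hK : Knows Q C)
    {L : Set (List Bool)} (hL : IsPSPACE (join Q A) L) :
    ∃ (f : List Bool → List Bool) (W : Polynomial ℕ), Poly f ∧
      ∀ (x : List Bool) (l : List (List Bool)),
        (∀ z : List Bool, z.length ≤ W.eval x.length → (z ∈ l ↔ rareB (join Q A) z = true)) →
        (x ∈ L ↔ Q (f (pairBits (bits (l.map (fun z => true :: z))) x)) = true) := by
  obtain ⟨M, p, hM⟩ := hL
  obtain ⟨f, hf, hfs⟩ := hK M p
  obtain ⟨b, hb⟩ := CC.act_length M p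
  refine ⟨f, b, hf, fun x l hl => ?_⟩
  obtain ⟨h1, s, z, h2, h3, h4⟩ := hM x
  have hcong : ∀ s, M.Reach (chg (join Q C) (bits (l.map (fun z => true :: z)))) x s ↔
      M.Reach (join Q A) x s := by
    refine CC.reach_congr (fun s => s.length ≤ p.eval x.length) h1 ?_
    intro s q h5 h6
    have h7 := hb x s h5
    rw [h6, List.length_cons] at h7
    unfold chg
    rw [unbits_bits, Option.getD_some]
    rcases q with _ | ⟨b, z⟩
    · simp [join]
    · cases b with
      | false => simp [join]
      | true =>
        have h8 : decide (true :: z ∈ l.map (fun z => true :: z)) = rareB (join Q A) z := by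
          rw [Bool.eq_iff_iff, decide_eq_true_eq, ← hl z (by
            rw [List.length_cons] at h7
            omega)]
          simp
        rw [h8]
        show (C z ^^ (A z ^^ Q (rep z.length))) = A z
        rw [hC]
        cases A z <;> cases Q (rep z.length) <;> rfl
  rw [h4, hfs _ x s z (fun s hs => h1 s ((hcong s).1 hs)) ((hcong s).2 h2) h3]

/-- **Hardness of the tally separators for `PSPACE`.** -/
theorem hard_psp {Q A C S : Oracle} (hC : ∀ z, C z = Q (rep z.length)) (hK : Knows Q C)
    {t N₀ : ℕ} (hS1 : ∀ x ∈ tl t N₀ true (join Q A), S x = true)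
    (hS0 : ∀ x ∈ tl t N₀ false (join Q A), S x = false) {L : Set (List Bool)}
    (hL : IsPSPACE (join Q A) L) : IsP (join (join Q A) S) L := by
  obtain ⟨f, W, hf, h⟩ := list_psp hC hK hL
  obtain ⟨l, hl1, hl2⟩ := exists_table (O := join Q A) (T := sepN S) (fun y hy => by
    unfold sepN
    rw [hS1 _ (rep_mem_tl hy), ndl_enc hy]
    simp) (fun y hy => by
    unfold sepN
    rw [hS0 _ (rep_mem_tl hy)]
    simp) W
  have h1 : IsFP (join (join Q A) (sepN S)) (fun y => [Q (f y)]) := by
    have h2 := IsFP.tt (A := join (join Q A) (sepN S)) (Q := fun y => [false :: false :: f y])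
      (H := fun p => [p.2.head?.getD false])
      (Poly.cons (Poly.cons (NPC.Poly.const false) (Poly.cons (NPC.Poly.const false) hf))
        (NPC.Poly.const []))
      (Poly.cons (Poly.head?_getD (Poly.snd Poly.id) false) (NPC.Poly.const []))
    exact h2
  refine ⟨_, DT.isFP_subst (isFP_sepN _ S) (IsFP.comp h1 hl1), fun x => ?_⟩
  rw [h x (l x) (hl2 x)]
  simp

end Pool.Agent.TH680.LHD
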