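import Pool.Agent.TH680.ND.Law
import Pool.Agent.TH680.OR.Inst

/-! A tally set in `NP` whose complement is not in `NP`. -/

set_option autoImplicit false

namespace Pool.Agent.TH680.LHD

open Pool.Agent.NPC Pool.Agent.H620R2.Gauge Pool.Agent.H591R3.PHG MeasureTheory ProbabilityTheory
  Finset Pool.Agent.W900.IE Pool.Agent.W900.PS Pool.Agent.H622R2 Pool.Agent.W900
open Pool.Agent.TH680.OD (join sfx rr length_sfx)
open Pool.Agent.TH680.SE (nn KK nn_le le_nn KK_le ae_fail rare_sum ver sat inst inst_mem length_inst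
  isFP_ver)
open Pool.Agent.TH680.ND (cd enc eN eI eJ uPoly_cd poly_enc rep poly_replen)


/-- the verifier of the tally set -/
def verT (b : Bool) (O : Oracle) (z : List Bool) : List Bool :=
  [(decide (rep (unpair z).2.length = (unpair z).2) &&
    (decide (cd (unpair (unpair z).1).1 = (unpair z).2.length) &&
    decide (enc (eN (unpair (unpair z).1).1) (eI (unpair (unpair z).1).1)
      (eJ (unpair (unpair z).1).1) = (unpair (unpair z).1).1))) &&
    decide (ver b O (pairBits (unpair (unpair z).1).2 (unpair (unpair z).1).1) = [true])]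

theorem isFP_verT (b : Bool) (O : Oracle) : IsFP O (verT b O) := by
  have hw : Poly (fun z : List Bool => (unpair z).1) := Poly.fst poly_unpair
  have hx : Poly (fun z : List Bool => (unpair z).2) := Poly.snd poly_unpair
  have hy : Poly (fun z : List Bool => (unpair (unpair z).1).1) := Poly.fst (poly_unpair.comp hw)
  have hv0 : Poly (fun z : List Bool => (unpair (unpair z).1).2) := Poly.snd (poly_unpair.comp hw)
  have hv : IsFP O (fun z => ver b O (pairBits (unpair (unpair z).1).2 (unpair (unpair z).1).1)) :=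
    (isFP_ver b O).precomp (poly_pairBits hv0 hy)
  have hp : Poly (fun z : List Bool => decide (rep (unpair z).2.length = (unpair z).2) &&
    (decide (cd (unpair (unpair z).1).1 = (unpair z).2.length) &&
    decide (enc (eN (unpair (unpair z).1).1) (eI (unpair (unpair z).1).1)
      (eJ (unpair (unpair z).1).1) = (unpair (unpair z).1).1))) :=
    Poly.and (Poly.decide_eq (poly_replen hx) hx) (Poly.and (Poly.decide_eq
      (uPoly_cd hy).toPoly (Poly.length hx)) (Poly.decide_eq (poly_enc
        (UPoly.length (Poly.fst (poly_unpair.comp hy)))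
        (UPoly.length (Poly.fst (poly_unpair.comp (Poly.snd (poly_unpair.comp hy)))))
        (UPoly.length (Poly.snd (poly_unpair.comp (Poly.snd (poly_unpair.comp hy)))))) hy))
  have h4 := IsFP.seq (φ := fun p : List Bool × List Bool => p.1)
    (ψ := fun p : List Bool × List Bool × List Bool =>
      [(decide (rep (unpair p.1).2.length = (unpair p.1).2) &&
    (decide (cd (unpair (unpair p.1).1).1 = (unpair p.1).2.length) &&
    decide (enc (eN (unpair (unpair p.1).1).1) (eI (unpair (unpair p.1).1).1)
      (eJ (unpair (unpair p.1).1).1) = (unpair (unpair p.1).1).1))) &&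
        decide (p.2.1 = [true])]) hv (IsFP.of_poly (A := O) (F := fun s => s) Poly.id)
    (Poly.fst Poly.id) (by
      have e1 : Poly (fun p : List Bool × List Bool × List Bool => p.1) := Poly.fst Poly.id
      exact Poly.cons (Poly.and (hp.comp e1) (Poly.decide_eq (Poly.fst (Poly.snd Poly.id))
          (NPC.Poly.const _))) (NPC.Poly.const []))
  exact h4

/-- the tally set -/
def tal (b : Bool) (O : Oracle) : Set (List Bool) :=
  {x | ∃ w : List Bool, w.length ≤ Polynomial.eval x.length
      (11 * Polynomial.X + 5 : Polynomial ℕ) ∧ verT b O (pairBits w x) = [true]}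

theorem isNP_tal (b : Bool) (O : Oracle) : IsNP O (tal b O) :=
  ⟨verT b O, _, isFP_verT b O, fun _ => Iff.rfl⟩

theorem tal_tally {b : Bool} {O : Oracle} {x : List Bool} (h : x ∈ tal b O) :
    x = List.replicate x.length true := by
  obtain ⟨w, _, h⟩ := h
  unfold verT at h
  simp only [unpair_pairBits, List.cons.injEq, and_true, Bool.and_eq_true,
    decide_eq_true_eq] at h
  exact h.1.1.symm

theorem inst_eq (n N K : ℕ) : inst n N K = enc n N K := rfl

theorem ver_len {b : Bool} {O : Oracle} {w x : List Bool}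
    (hw : ver b O (pairBits w x) = [true]) : w.length = TH678.SETH.par x := by
  unfold ver at hw
  simp only [unpair_pairBits, List.cons.injEq, and_true, Bool.and_eq_true,
    decide_eq_true_eq] at hw
  exact hw.1

theorem tal_mem (b : Bool) (O : Oracle) (n N K : ℕ) :
    rep (cd (inst n N K)) ∈ tal b O ↔ inst n N K ∈ sat b O := by
  have hl : (rep (cd (inst n N K))).length = cd (inst n N K) := List.length_replicate
  have hcd : cd (inst n N K) = ND.code n N K := by rw [inst_eq, ND.cd_enc]
  constructor
  · rintro ⟨w, _, h⟩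
    unfold verT at h
    simp only [unpair_pairBits, List.cons.injEq, and_true, Bool.and_eq_true,
      decide_eq_true_eq, hl] at h
    obtain ⟨⟨_, h2, h3⟩, h4⟩ := h
    have h5 : (unpair w).1 = inst n N K := by
      rw [← h3, ND.cd_enc, hcd] at h2
      obtain ⟨e1, e2, e3⟩ := ND.code_inj h2
      rw [← h3, e1, e2, e3, inst_eq]
    rw [h5] at h4
    refine ⟨(unpair w).2, (ver_len h4).le, h4⟩
  · rintro ⟨v, h1, h2⟩
    refine ⟨pairBits (inst n N K) v, ?_, ?_⟩
    · have h3 : n ≤ cd (inst n N K) := hcd ▸ ND.N_le_code _ _ _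
      have h4 : N ≤ cd (inst n N K) := hcd ▸ ND.i_le_code _ _ _
      have h5 : K ≤ cd (inst n N K) := hcd ▸ ND.j_le_code _ _ _
      have h6 := ver_len h2
      rw [SE.par_inst] at h6
      rw [length_pairBits, length_inst, h6, hl]
      simp only [Polynomial.eval_add, Polynomial.eval_mul, Polynomial.eval_ofNat,
        Polynomial.eval_X]
      omega
    · unfold verT
      simp only [unpair_pairBits, hl]
      rw [h2, inst_eq, ND.eN_enc, ND.eI_enc, ND.eJ_enc]
      simp

/-- **A tally set in `NP` whose complement is not in `NP`.** -/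
theorem ae_tally {q : ℕ → unitInterval} (h : ¬ Summable (fun N => 2 ^ N * rr q N)) (Q : Oracle) :
    ∀ᵐ A ∂(indep (DT.pq q)), ∃ T : Set (List Bool), IsNP (join Q A) T ∧
      ¬ IsNP (join Q A) Tᶜ ∧ ∀ x ∈ T, x = List.replicate x.length true := by
  obtain ⟨b, hb⟩ := rare_sum h
  have := EL.countable_poly
  have h1 : ∀ᵐ A ∂(indep (DT.pq q)), ∀ (M : Alg) (p : Polynomial ℕ), ∃ᶠ N : ℕ in Filter.atTop,
        ¬ (A ∈ EL.Acc Q M (p.eval (rep (cd (inst (nn q N) N (KK q N)))).length)
            (rep (cd (inst (nn q N) N (KK q N)))) ↔ ∀ w : List Bool, w.length = nn q N →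
              ∃ i < KK q N, A (w ++ sfx (N - nn q N) i) = b) := by
    rw [ae_all_iff]
    intro M
    rw [ae_all_iff]
    intro p
    refine SE.ae_fail (q := q) (b := b) hb
        (Acc := fun N => EL.Acc Q M (p.eval (rep (cd (inst (nn q N) N (KK q N)))).length)
            (rep (cd (inst (nn q N) N (KK q N))))) (fun N => EL.acc_dep Q M _ _) ?_
    filter_upwards [OR.poly_le_sqrt (2 * M.p.comp (2 * p.comp (30 * (Polynomial.X + 1) ^ 4) + 1 +
      (30 * (Polynomial.X + 1) ^ 4)))] with N hN A hA
    obtain ⟨S, hS, h3⟩ := EL.acc_cert Q M _ _ hA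
    refine ⟨S, ?_, h3⟩
    have e1 : (rep (cd (inst (nn q N) N (KK q N)))).length ≤ 30 * (N + 1) ^ 4 := by
      have hl : (rep (cd (inst (nn q N) N (KK q N)))).length = cd (inst (nn q N) N (KK q N)) :=
        List.length_replicate
      rw [hl, inst_eq, ND.cd_enc]
      have h5 := nn_le q N
      have h6 := KK_le q N
      have h7 := Nat.sqrt_le_self N
      unfold ND.code ND.pr
      set n := nn q N
      set K := KK q N
      have g1 : N + K ≤ 2 * (N + 1) := by omega
      have g2 : (N + K) * (N + K) + N ≤ 5 * (N + 1) ^ 2 := by nlinarith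
      have g3 : n + ((N + K) * (N + K) + N) ≤ 5 * (N + 1) ^ 2 + (N + 1) := by omega
      have g4 : N + 1 ≤ (N + 1) ^ 2 := by nlinarith
      have g5 : n + ((N + K) * (N + K) + N) ≤ 5 * (N + 1) ^ 2 := by
        have : (N + K) * (N + K) ≤ 4 * (N + 1) ^ 2 := by nlinarith
        nlinarith [Nat.zero_le N]
      have g6 := Nat.mul_le_mul g5 g5
      have g7 : 5 * (N + 1) ^ 2 * (5 * (N + 1) ^ 2) = 25 * (N + 1) ^ 4 := by ring
      have g8 : N + 1 ≤ (N + 1) ^ 4 := by
        calc N + 1 = (N + 1) ^ 1 := (pow_one _).symm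
          _ ≤ (N + 1) ^ 4 := Nat.pow_le_pow_right (by omega) (by norm_num)
      omega
    have e2 : M.p.eval (2 * p.eval (rep (cd (inst (nn q N) N (KK q N)))).length + 1 +
        (rep (cd (inst (nn q N) N (KK q N)))).length) ≤
          M.p.eval (2 * p.eval (30 * (N + 1) ^ 4) + 1 + (30 * (N + 1) ^ 4)) := by
      refine eval_mono _ ?_
      have := eval_mono p e1
      omega
    simp only [Polynomial.eval_mul, Polynomial.eval_ofNat, Polynomial.eval_comp,
      Polynomial.eval_add, Polynomial.eval_X, Polynomial.eval_one, Polynomial.eval_pow] at hN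
    have e3 : 2 ^ (Nat.sqrt N / 2) ≤ 2 ^ nn q N :=
      Nat.pow_le_pow_right (by norm_num) ((Nat.div_le_self _ _).trans (le_nn q N))
    omega
  filter_upwards [h1] with A hA
  refine ⟨tal b (join Q A), isNP_tal b _, ?_, fun x hx => tal_tally hx⟩
  rintro ⟨V, p, ⟨M, hM⟩, h2⟩
  obtain ⟨N, hN⟩ := (hA M p).exists
  apply hN
  rw [← inst_mem b Q A, ← tal_mem]
  have h3 := h2 (rep (cd (inst (nn q N) N (KK q N))))
  rw [Set.mem_compl_iff] at h3
  rw [h3]
  exact exists_congr fun w => and_congr_right fun _ => by rw [hM, Option.some.injEq]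

end Pool.Agent.TH680.LHD
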