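import Pool.Agent.H490R3.LH.Fin3
import Pool.Agent.TH680.LHD.Coll
import Pool.Agent.TH680.LHD.Tally

/-! The refined low and high hierarchies. -/

set_option autoImplicit false

namespace Pool.Agent.TH680.LHD

open Pool.Agent.NPC Pool.Agent.H490R3.LH
open Pool.Agent.H583R2.S2 (chr)
open Pool.Agent.H620R2 (Gauge.Oracle Gauge.IsFP Gauge.IsNP Gauge.IsP Gauge.IsPSPACE Gauge.IsSigma
  Gauge.IsPH)
open Pool.Agent.H943R5.GC.U6 (isFP_toRO isFP_ofRO)

abbrev RIsP := Pool.Agent.H583R2.S2.IsP
abbrev RIsNP := Pool.Agent.H628R3.RO.IsNP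

variable {X : Gauge.Oracle}

theorem isP_iff {L : Set (List Bool)} : RIsP X L ↔ Gauge.IsP X L :=
  ⟨fun ⟨V, hV, h⟩ => ⟨V, isFP_ofRO hV, h⟩, fun ⟨V, hV, h⟩ => ⟨V, isFP_toRO hV, h⟩⟩

theorem sig_one {L : Set (List Bool)} : Sig X 1 L ↔ Gauge.IsNP X L := sig_iff X 1 L

theorem isNP_iff {L : Set (List Bool)} : RIsNP X L ↔ Gauge.IsNP X L :=
  (p_SB.2.1 X L).symm.trans sig_one

theorem psp_of_sig {k : ℕ} {L : Set (List Bool)} (h : Sig X k L) : Gauge.IsPSPACE X L := by
  rw [sig_iff] at h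
  obtain ⟨V, p, hV, hL⟩ := h
  have h1 : Gauge.IsPH X L := ⟨V, p, k, hV, hL⟩
  exact h1.isPSPACE

theorem sig_succ {k : ℕ} {L : Set (List Bool)} (h : Sig X k L) : Sig X (k + 1) L :=
  ⟨L, h, (p_SB.1 _ _ (INC_self L)).1⟩

theorem sig_mono {j k : ℕ} (hjk : j ≤ k) {L : Set (List Bool)} (h : Sig X j L) : Sig X k L := by
  induction hjk with
  | refl => exact h
  | step _ ih => exact sig_succ ih

theorem sig_of_del {k : ℕ} {L : Set (List Bool)} (h : Del X k L) : Sig X k L := by
  rcases k with _ | k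
  · exact h
  · obtain ⟨K, hK, hL⟩ := h
    exact ⟨K, hK, (p_SB.1 _ _ hL).1⟩

theorem del_of_sig {k : ℕ} {L : Set (List Bool)} (h : Sig X k L) : Del X (k + 1) L :=
  ⟨L, h, INC_self L⟩

theorem del_mono {j k : ℕ} (hjk : j ≤ k) {L : Set (List Bool)} (h : Del X j L) : Del X k L := by
  induction hjk with
  | refl => exact h
  | step _ ih => exact del_of_sig (sig_of_del ih)

open Pool.Agent.H673R2.OneTT Pool.Agent.H673R2.OneOne Pool.Agent.H628R3.RO in
/-- the oracle `join X A` as a set in `NP` -/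
theorem isNP_join {A : Set (List Bool)} (hA : RIsNP X A) :
    Sig X 1 {z | Pool.Agent.H490R3.LH.join X A z = true} := by
  rw [p_SB.2.1]
  have hhead : Poly (fun p : List Bool × List Bool => p.1.head?) :=
    Poly.head? (Poly.fst Poly.id)
  have hans : Poly (fun p : List Bool × List Bool => p.2.head?) :=
    Poly.head? (Poly.snd Poly.id)
  have hT : RIsNP X {z : List Bool | decide (z.head? = some true) = true} :=
    isNP_of_poly X (Poly.decide_eq (Poly.head? Poly.id) (NPC.Poly.const _))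
  have htail : Pool.Agent.H628R3.RO.IsFP X (fun z : List Bool => z.tail) :=
    Pool.Agent.H628R3.RO.IsFP.of_poly (Poly.tail Poly.id)
  have h1 := SJ_isNP_of_isFP (SJ_ask X
    (H := fun p => [decide (p.1.head? = some false) && decide (p.2.head? = some true)])
    (Poly.cons (Poly.and (Poly.decide_eq hhead (NPC.Poly.const _))
      (Poly.decide_eq hans (NPC.Poly.const _))) (NPC.Poly.const [])))
  have h2 : RIsNP X {z : List Bool | z.tail ∈ A} :=
    IsNP.red ⟨fun z => z.tail, htail, fun _ => Iff.rfl⟩ hA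
  have h3 := IsNP.union h1 (IsNP.inter hT h2)
  have he : {z | Pool.Agent.H490R3.LH.join X A z = true} = {x : List Bool |
      [decide (x.head? = some false) && decide ([X x.tail].head? = some true)] = [true]} ∪
      ({z : List Bool | decide (z.head? = some true) = true} ∩
        {z : List Bool | z.tail ∈ A}) := by
    ext z
    rcases z with _ | ⟨b, z⟩
    · simp [Pool.Agent.H490R3.LH.join]
    · cases b <;> simp [Pool.Agent.H490R3.LH.join, chr]
  rw [he]
  exact h3

theorem chr_join (A : Set (List Bool)) :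
    chr {z | Pool.Agent.H490R3.LH.join X A z = true} = Pool.Agent.H490R3.LH.join X A :=
  SB_chr _

/-- `Σ_k` relative to a set in `NP` -/
theorem sig_join {A : Set (List Bool)} (hA : RIsNP X A) {k : ℕ} {L : Set (List Bool)}
    (h : Sig (Pool.Agent.H490R3.LH.join X A) (k + 1) L) : Sig X (k + 2) L := by
  induction k generalizing L with
  | zero =>
    rw [p_SB.2.1] at h
    exact ⟨_, isNP_join hA, by rw [chr_join]; exact h⟩
  | succ k ih =>
    obtain ⟨K, hK, hL⟩ := h
    exact ⟨K, ih hK, hL⟩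

theorem psp_of_sig_join {A : Set (List Bool)} (hA : RIsNP X A) {k : ℕ} {L : Set (List Bool)}
    (h : Sig (Pool.Agent.H490R3.LH.join X A) k L) : Gauge.IsPSPACE X L :=
  psp_of_sig (sig_join hA (sig_succ h))

theorem sig_lift (A : Set (List Bool)) {k : ℕ} {L : Set (List Bool)} (h : Sig X k L) :
    Sig (Pool.Agent.H490R3.LH.join X A) k L := by
  induction k generalizing L with
  | zero =>
    obtain ⟨F, hF, hL⟩ := h
    exact ⟨F, SJ_lift A hF, hL⟩
  | succ k ih =>
    obtain ⟨K, hK, hL⟩ := h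
    exact ⟨K, ih hK, hL⟩

theorem del_lift (A : Set (List Bool)) {k : ℕ} {L : Set (List Bool)} (h : Del X k L) :
    Del (Pool.Agent.H490R3.LH.join X A) k L := by
  rcases k with _ | k
  · exact sig_lift (k := 0) A h
  · obtain ⟨K, hK, hL⟩ := h
    exact ⟨K, sig_lift A hK, hL⟩

/-- all classes of the two refined hierarchies at level `k` are `NP` -/
def AllNP (X : Gauge.Oracle) (k : ℕ) : Prop :=
  Low X k = {A | RIsNP X A} ∧ LowD X k = {A | RIsNP X A} ∧
    High X k = {A | RIsNP X A} ∧ HighD X k = {A | RIsNP X A}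

/-- the hierarchies collapse where polynomial space does -/
theorem allNP {j : ℕ} (h : ∀ L, Gauge.IsPSPACE X L → Del X j L) {k : ℕ} (hjk : j ≤ k) :
    AllNP X k := by
  have h1 : ∀ L, Gauge.IsPSPACE X L → Del X k L := fun L hL => del_mono hjk (h L hL)
  have h2 : ∀ L, Gauge.IsPSPACE X L → Sig X k L := fun L hL => sig_of_del (h1 L hL)
  refine ⟨?_, ?_, ?_, ?_⟩
  · ext A
    exact ⟨fun hA => hA.1, fun hA => ⟨hA, fun L hL => h2 L (psp_of_sig_join hA hL)⟩⟩
  · ext A
    exact ⟨fun hA => hA.1, fun hA => ⟨hA, fun L hL =>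
      h1 L (psp_of_sig_join hA (sig_of_del hL))⟩⟩
  · ext A
    exact ⟨fun hA => hA.1, fun hA => ⟨hA, fun L hL => sig_lift A (h2 L (psp_of_sig hL))⟩⟩
  · ext A
    exact ⟨fun hA => hA.1, fun hA => ⟨hA, fun L hL =>
      del_lift A (h1 L (psp_of_sig (sig_of_del hL)))⟩⟩

/-- a tally set in `NP` whose complement is not in `NP` -/
theorem low_ssubset {T : Set (List Bool)} (h1 : Gauge.IsNP X T) (h2 : ¬ Gauge.IsNP X Tᶜ)
    (h3 : ∀ x ∈ T, x = List.replicate x.length true) : Low X 1 ⊂ LowD X 2 := by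
  refine ⟨(p_INC X 1).1, fun hcon => ?_⟩
  have h4 : T ∈ LowD X 2 := p_T2 X T (isNP_iff.2 h1) (fun x hx => ⟨_, h3 x hx⟩)
  have h5 := (hcon h4).2 Tᶜ
  refine h2 (sig_one.1 (h5 ?_))
  rw [p_SB.2.1]
  exact (p_SB.1 _ _ (t_SJ X T).2.2.1).2

/-! ### The same classes -/

theorem same_sig {X X' : Gauge.Oracle} (h : ∀ F, Gauge.IsFP X F ↔ Gauge.IsFP X' F) (k : ℕ)
    (L : Set (List Bool)) : Sig X k L ↔ Sig X' k L := by
  induction k generalizing L with
  | zero =>
    show RIsP X L ↔ RIsP X' L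
    rw [isP_iff, isP_iff]
    unfold Gauge.IsP
    simp only [h]
  | succ k ih =>
    show (∃ K, Sig X k K ∧ _) ↔ ∃ K, Sig X' k K ∧ _
    simp only [ih]

theorem same_del {X X' : Gauge.Oracle} (h : ∀ F, Gauge.IsFP X F ↔ Gauge.IsFP X' F) (k : ℕ)
    (L : Set (List Bool)) : Del X k L ↔ Del X' k L := by
  rcases k with _ | k
  · exact same_sig h 0 L
  · show (∃ K, Sig X k K ∧ _) ↔ ∃ K, Sig X' k K ∧ _
    simp only [same_sig h]

/-- the classes of the two refined hierarchies are the same -/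
def SameAll (X X' : Gauge.Oracle) : Prop :=
  ∀ k, Low X k = Low X' k ∧ LowD X k = LowD X' k ∧ High X k = High X' k ∧ HighD X k = HighD X' k

theorem same_all {X X' : Gauge.Oracle} {E : List Bool → Bool} (hE : Poly E)
    (h : ∀ x, X' x = (X x ^^ E x)) : SameAll X X' := by
  have h1 : ∀ F, Gauge.IsFP X F ↔ Gauge.IsFP X' F := DT.same_isFP hE h
  have h2 : ∀ (A : Set (List Bool)) (F : List Bool → List Bool),
      Gauge.IsFP (Pool.Agent.H490R3.LH.join X A) F ↔
        Gauge.IsFP (Pool.Agent.H490R3.LH.join X' A) F := fun A =>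
    DT.same_isFP (E := fun x => decide (x.head? = some false) && E x.tail)
      (Poly.and (Poly.decide_eq (Poly.head? Poly.id) (NPC.Poly.const _))
        (hE.comp (Poly.tail Poly.id))) (fun x => by
      rcases x with _ | ⟨b, z⟩
      · rfl
      · cases b with
        | true => simp [Pool.Agent.H490R3.LH.join]
        | false =>
          show X' z = _
          rw [h]
          simp [Pool.Agent.H490R3.LH.join])
  have h3 : ∀ A, RIsNP X A ↔ RIsNP X' A := fun A => by
    exact ((p_SB.2.1 X A).symm.trans (same_sig h1 1 A)).trans (p_SB.2.1 X' A)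
  intro k
  refine ⟨?_, ?_, ?_, ?_⟩
  · ext A
    exact and_congr (h3 A) (forall_congr' fun L => by rw [same_sig h1, same_sig (h2 A)])
  · ext A
    exact and_congr (h3 A) (forall_congr' fun L => by rw [same_del h1, same_del (h2 A)])
  · ext A
    exact and_congr (h3 A) (forall_congr' fun L => by rw [same_sig h1, same_sig (h2 A)])
  · ext A
    exact and_congr (h3 A) (forall_congr' fun L => by rw [same_del h1, same_del (h2 A)])

end Pool.Agent.TH680.LHD
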