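import Pool.Agent.TH680.ND.Law

/-! `PSPACE` relative to an oracle with few rare strings: reductions, given the list of them. -/

set_option autoImplicit false

namespace Pool.Agent.TH680.LHD

open Pool.Agent.NPC Pool.Agent.H620R2.Gauge Pool.Agent.H591R3.PHG MeasureTheory ProbabilityTheory
  Finset Pool.Agent.W900.IE Pool.Agent.W900.PS Pool.Agent.H622R2 Pool.Agent.W900
open Pool.Agent.TH680.OD (join sfx rr length_sfx)
open Pool.Agent.TH680.ND (rep)

open CC in
/-- coding, for computations on single inputs -/
theorem exists_codingP : ∃ (R : ℕ → Polynomial ℕ) (Φ : Oracle → Oracle),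
    (∀ B y, (∀ e x, y ≠ code R e x) → Φ B y = B y) ∧
    ∀ (M : SAlg) (p : Polynomial ℕ), ∃ f : List Bool → List Bool, Poly f ∧
      ∀ (B : Oracle) (x s z : List Bool), (∀ s, M.Reach (Φ B) x s → s.length ≤ p.eval x.length) →
        M.Reach (Φ B) x s → M.act (pairBits x s) = true :: z →
        (z = [true] ↔ Φ B (f x) = true) := by
  obtain ⟨g, hg⟩ := exists_enum
  choose b hb using fun e : ℕ => act_length (g e).1 (g e).2
  set R : ℕ → Polynomial ℕ := fun e => b e + (Polynomial.X + Polynomial.C (e + 1)) ^ 0 with hR
  set V : ℕ → Oracle → List Bool → Prop := fun e A x =>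
    Acc (g e).1 (CC.cut ((b e).eval x.length) A) x with hV
  have hRe : ∀ e n, (R e).eval n = (b e).eval n + (n + (e + 1)) ^ 0 := by
    intro e n
    rw [hR]
    simp only [Polynomial.eval_add, Polynomial.eval_pow, Polynomial.eval_X, Polynomial.eval_C]
  refine ⟨R, Phi R V, fun B y h => Phi_not R V B y h, ?_⟩
  intro M p
  obtain ⟨e, he⟩ := hg (M, p)
  refine ⟨fun x => code R e x, poly_code R e, fun B x s z hM1 hs hz => ?_⟩
  have hloc : ∀ e A A' x, (∀ z : List Bool, z.length < (code R e x).length → A z = A' z) →
      (V e A x ↔ V e A' x) := by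
    intro e A A' x h
    have hcut : CC.cut ((b e).eval x.length) A = CC.cut ((b e).eval x.length) A' := by
      funext z
      unfold CC.cut
      split_ifs with hz
      · apply h
        have h1 := lt_length_code R e x
        have h2 := hRe e x.length
        omega
      · rfl
    simp only [hV, hcut]
  change z = [true] ↔ Phi R V B (code R e x) = true
  rw [Phi_code R V B hloc e x]
  change z = [true] ↔ Acc (g e).1 (CC.cut ((b e).eval x.length) (Phi R V B)) x
  have hbe := hb e
  rw [he] at hbe ⊢
  have hcong : ∀ s, M.Reach (CC.cut ((b e).eval x.length) (Phi R V B)) x s ↔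
      M.Reach (Phi R V B) x s := by
    refine reach_congr (fun s => s.length ≤ p.eval x.length) hM1 ?_
    intro s q h1 h2
    have h3 := hbe x s h1
    rw [h2, List.length_cons] at h3
    unfold CC.cut
    rw [if_pos (by omega)]
  constructor
  · intro hx
    refine ⟨s, (hcong s).2 hs, ?_⟩
    rw [hz, hx]
  · rintro ⟨t, ht, ht2⟩
    have hst := reach_unique hs ((hcong t).1 ht) ⟨_, hz⟩ ⟨_, ht2⟩
    rw [hst, ht2] at hz
    simp only [List.cons.injEq, true_and] at hz
    exact hz.symm

/-- simulation, with a parameter -/
theorem salg_param (M : SAlg) {E : List Bool → Bool} {h : List Bool → List Bool}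
    {G : List Bool → Bool} (hE : Poly E) (hh : Poly h) (hG : Poly G) :
    ∃ M' : SAlg, ∀ (A : Oracle) (c x : List Bool),
      (∀ s, M'.Reach A (pairBits c x) s ↔
        M.Reach (fun q => ((E q && A (h q)) ^^ G (pairBits c q))) x s) ∧
      ∀ s z, M.act (pairBits x s) = true :: z →
        M'.act (pairBits (pairBits c x) s) = true :: z := by
  have h1 : Poly (fun z : List Bool => (unpair z).1) := Poly.fst poly_unpair
  have h2 : Poly (fun z : List Bool => (unpair z).2) := Poly.snd poly_unpair
  have hc : Poly (fun z : List Bool => (unpair (unpair z).1).1) := h1.comp h1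
  have hx : Poly (fun z : List Bool => (unpair (unpair z).1).2) := h2.comp h1
  have hA := poly_of_polyTime M.act_poly
  have hq : Poly (fun z : List Bool =>
      (M.act (pairBits (unpair (unpair z).1).2 (unpair z).2.tail)).tail) :=
    Poly.tail (hA.comp (poly_pairBits hx (Poly.tail h2)))
  have hN : Poly (fun z : List Bool => M.next (pairBits (unpair (unpair z).1).2
      (((E (M.act (pairBits (unpair (unpair z).1).2 (unpair z).2.tail)).tail &&
        (unpair z).2.head?.getD false) ^^ G (pairBits (unpair (unpair z).1).1
          (M.act (pairBits (unpair (unpair z).1).2 (unpair z).2.tail)).tail)) ::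
        (unpair z).2.tail))) :=
    (poly_of_polyTime M.next_poly).comp (poly_pairBits hx (Poly.cons (Poly.xor
      (Poly.and (hE.comp hq) (Poly.head?_getD h2 false)) (hG.comp (poly_pairBits hc hq)))
      (Poly.tail h2)))
  have ha : Poly (fun z : List Bool => M.act (pairBits (unpair (unpair z).1).2 (unpair z).2)) :=
    hA.comp (poly_pairBits hx h2)
  have hAct : Poly (fun z : List Bool =>
      if (M.act (pairBits (unpair (unpair z).1).2 (unpair z).2)).head? = some false then
      false :: h (M.act (pairBits (unpair (unpair z).1).2 (unpair z).2)).tail else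
      M.act (pairBits (unpair (unpair z).1).2 (unpair z).2)) :=
    Poly.ite (Poly.decide_eq (Poly.head? ha) (NPC.Poly.const _))
      (Poly.cons (NPC.Poly.const false) (hh.comp (Poly.tail ha))) ha
  let M' : SAlg := ⟨_, polyTime_of_poly_list hAct, _, polyTime_of_poly_list hN⟩
  refine ⟨M', fun A c x => ?_⟩
  set D : Oracle := fun q => ((E q && A (h q)) ^^ G (pairBits c q)) with hD
  have hact0 : ∀ s, M'.act (pairBits (pairBits c x) s) =
      if (M.act (pairBits x s)).head? = some false then
        false :: h (M.act (pairBits x s)).tail else M.act (pairBits x s) := by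
    intro s
    show (if (M.act (pairBits (unpair (unpair (pairBits (pairBits c x) s)).1).2
      (unpair (pairBits (pairBits c x) s)).2)).head? = some false then _ else _) = _
    simp only [unpair_pairBits]
  have hact1 : ∀ s q : List Bool, M.act (pairBits x s) = false :: q →
      M'.act (pairBits (pairBits c x) s) = false :: h q := by
    intro s q hq
    rw [hact0, hq]
    simp
  have hact2 : ∀ s q' : List Bool, M'.act (pairBits (pairBits c x) s) = false :: q' →
      ∃ q, M.act (pairBits x s) = false :: q ∧ q' = h q := by
    intro s q' hq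
    rw [hact0] at hq
    split_ifs at hq with h3
    · rcases h4 : M.act (pairBits x s) with _ | ⟨b, q⟩
      · rw [h4] at h3
        simp at h3
      · rw [h4] at h3 hq
        simp at h3 hq
        exact ⟨q, by rw [h3], hq.symm⟩
    · exfalso
      apply h3
      rw [hq]
      rfl
  have hnext : ∀ (s : List Bool) (q : List Bool), M.act (pairBits x s) = false :: q →
      M'.next (pairBits (pairBits c x) (A (h q) :: s)) = M.next (pairBits x (D q :: s)) := by
    intro s q hq
    show M.next (pairBits (unpair (unpair (pairBits (pairBits c x) (A (h q) :: s))).1).2 _) = _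
    simp only [unpair_pairBits, List.head?_cons, Option.getD_some, List.tail_cons, hq, hD]
  refine ⟨fun s => ⟨fun h3 => ?_, fun h3 => ?_⟩, fun s z hz => ?_⟩
  · induction h3 with
    | start => exact SAlg.Reach.start
    | step _ h4 ih =>
      obtain ⟨q, h5, rfl⟩ := hact2 _ _ h4
      rw [hnext _ _ h5]
      exact SAlg.Reach.step ih h5
  · induction h3 with
    | start => exact SAlg.Reach.start
    | step _ h4 ih =>
      rw [← hnext _ _ h4]
      exact SAlg.Reach.step ih (hact1 _ _ h4)
  · rw [hact0, hz]
    simp

/-- the oracle `Q` knows the computations in polynomial space relative to `join Q C`, changed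
at finitely many places -/
def Knows (Q C : Oracle) : Prop :=
  ∀ (M : SAlg) (p : Polynomial ℕ), ∃ f : List Bool → List Bool, Poly f ∧
    ∀ c x s z : List Bool, (∀ s, M.Reach (chg (join Q C) c) x s → s.length ≤ p.eval x.length) →
      M.Reach (chg (join Q C) c) x s → M.act (pairBits x s) = true :: z →
      (z = [true] ↔ Q (f (pairBits c x)) = true)

/-- **An oracle which knows everything.** -/
theorem exists_above3 {C : Oracle} (hC : ∀ x y : List Bool, x.length = y.length → C x = C y) :
    ∃ Q : Oracle, (∀ z, C z = Q (rep z.length)) ∧ Knows Q C := by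
  obtain ⟨R, Φ, h2, h3⟩ := exists_codingP
  set Q := Φ C with hQ
  have hones : ∀ k : ℕ, Q (List.replicate k true) = C (List.replicate k true) := by
    intro k
    apply h2
    intro e x hcon
    have h4 : false ∈ H620R2.Gauge.code R e x := by
      unfold H620R2.Gauge.code
      simp
    rw [← hcon, List.mem_replicate] at h4
    exact absurd h4.2 (by simp)
  refine ⟨Q, fun z => ?_, fun M p => ?_⟩
  · unfold rep
    rw [hones]
    exact hC _ _ (by simp)
  have hD : ∀ y, join Q C y = ((!y.isEmpty) &&
      Q (if y.head? = some true then List.replicate y.tail.length true else y.tail)) := by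
    intro y
    rcases y with _ | ⟨b, z⟩
    · rfl
    · cases b with
      | false => simp [join]
      | true =>
        simp only [join, List.isEmpty_cons, Bool.not_false, List.head?_cons, if_true,
          List.tail_cons, Bool.true_and]
        rw [hones]
        exact hC _ _ (by simp)
  have hE : Poly (fun y : List Bool => !y.isEmpty) := Poly.not (Poly.isEmpty Poly.id)
  have hh : Poly (fun y : List Bool => if y.head? = some true then
      List.replicate y.tail.length true else y.tail) :=
    Poly.ite (Poly.decide_eq (Poly.head? Poly.id) (NPC.Poly.const _))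
      (W900.PS.poly_rep (UPoly.length (Poly.tail Poly.id))) (Poly.tail Poly.id)
  have hG : Poly (fun z : List Bool =>
      decide ((unpair z).2 ∈ (unbits (List (List Bool)) (unpair z).1).getD [])) :=
    Poly.dec_mem poly_u2 (Poly.optGetD (poly_unbits.comp poly_u1) (NPC.Poly.const []))
  obtain ⟨M', hM'⟩ := salg_param M hE hh hG
  obtain ⟨f, hf, h4⟩ := h3 M' p
  refine ⟨f, hf, fun c x s z h5 h6 h7 => ?_⟩
  have hDeq : (fun q => (((!q.isEmpty) && Q (if q.head? = some true then
      List.replicate q.tail.length true else q.tail)) ^^
        decide ((unpair (pairBits c q)).2 ∈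
          (unbits (List (List Bool)) (unpair (pairBits c q)).1).getD []))) =
        chg (join Q C) c := by
    funext q
    unfold chg
    rw [hD q, unpair_pairBits]
  obtain ⟨h8, h9⟩ := hM' Q c x
  rw [hDeq] at h8
  refine h4 C (pairBits c x) s z (fun s hs => ?_) ((h8 s).2 h6) (h9 s z h7)
  refine (h5 s ((h8 s).1 hs)).trans (eval_mono p ?_)
  rw [length_pairBits]
  omega

end Pool.Agent.TH680.LHD
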